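import Pool.Agent.Helper21.RE.Slicing

/-! encoding of systems of polynomials of bounded degree in one universal family -/

set_option autoImplicit false

namespace Pool.Agent.Helper21.RE

open MvPolynomial

/-- universal polynomials: `b` polynomials of degree `≤ D` in each of `n` variables -/
noncomputable def univPoly (n D b : ℕ) (i : Fin b) :
    MvPolynomial (Fin n) (MvPolynomial (Fin b × (Fin n → Fin (D + 1))) ℤ) :=
  ∑ α : Fin n → Fin (D + 1), C (X (i, α)) * ∏ t, X t ^ (α t : ℕ)

open Classical in
/-- the universal family -/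
noncomputable def univG (n D b : ℕ) :
    Finset (MvPolynomial (Fin n) (MvPolynomial (Fin b × (Fin n → Fin (D + 1))) ℤ)) :=
  Finset.univ.image (univPoly n D b)

theorem ev_univPoly {n D b : ℕ} (i : Fin b) {k : Type} [CommRing k]
    (c : Fin b × (Fin n → Fin (D + 1)) → k) (x : Fin n → k) :
    ev c x (univPoly n D b i) = ∑ α : Fin n → Fin (D + 1), c (i, α) * ∏ t, x t ^ (α t : ℕ) := by
  simp [univPoly, ev, map_sum, map_prod]

/-- the monomial of an exponent vector -/
noncomputable def mon {n D : ℕ} (α : Fin n → Fin (D + 1)) : Fin n →₀ ℕ :=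
  Finsupp.equivFunOnFinite.symm (fun t => (α t : ℕ))

theorem sum_coeff {n D : ℕ} {R k : Type} [CommRing R] [CommRing k] [Algebra R k]
    (p : MvPolynomial (Fin n) R) (hp : p.totalDegree ≤ D) (x : Fin n → k) :
    ∑ α : Fin n → Fin (D + 1), algebraMap R k (p.coeff (mon α)) * ∏ t, x t ^ (α t : ℕ) = aeval x p := by
  classical
  rw [MvPolynomial.aeval_def, MvPolynomial.eval₂_eq']
  symm
  have hle : ∀ d ∈ p.support, ∀ t, d t < D + 1 := by
    intro d hd t
    have h1 := MvPolynomial.le_totalDegree hd
    have h2 : d t ≤ d.sum fun _ e => e := by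
      rw [Finsupp.sum_fintype _ _ (fun _ => rfl)]
      exact Finset.single_le_sum (f := fun t => d t) (fun _ _ => Nat.zero_le _) (Finset.mem_univ t)
    omega
  have himg : p.support ⊆ Finset.univ.image (mon : (Fin n → Fin (D + 1)) → _) := by
    intro d hd
    rw [Finset.mem_image]
    refine ⟨fun t => ⟨d t, hle d hd t⟩, Finset.mem_univ _, ?_⟩
    ext t
    simp [mon]
  rw [Finset.sum_subset himg, Finset.sum_image]
  · rfl
  · intro α _ β _ hαβ
    funext t
    apply Fin.ext
    have := DFunLike.congr_fun hαβ t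
    simpa [mon] using this
  · intro d _ hd
    rw [MvPolynomial.notMem_support_iff] at hd
    rw [hd, map_zero, zero_mul]

/-- every system is a member of the universal family -/
theorem mem_univ_iff {n D b : ℕ} {p : ℕ} [Fact p.Prime] {k : Type} [Field k] [Algebra (ZMod p) k]
    (Φ : Fin b → MvPolynomial (Fin n) (ZMod p)) (hΦ : ∀ i, (Φ i).totalDegree ≤ D) (x : Fin n → k) :
    x ∈ Loc (univG n D b) 1 (fun j : Fin b × (Fin n → Fin (D + 1)) =>
      algebraMap (ZMod p) k ((Φ j.1).coeff (mon j.2))) ↔ ∀ i, aeval x (Φ i) = 0 := by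
  classical
  simp only [Loc, univG, Finset.mem_image, Finset.mem_univ, true_and, Set.mem_ofPred_eq,
    forall_exists_index, forall_apply_eq_imp_iff, map_one, ne_eq, one_ne_zero, not_false_eq_true, and_true,
    ev_univPoly]
  constructor
  · intro h i
    rw [← sum_coeff (Φ i) (hΦ i) x]
    exact h i
  · intro h i
    have := h i
    rw [← sum_coeff (Φ i) (hΦ i) x] at this
    exact this

end Pool.Agent.Helper21.RE
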