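import Pool.Agent.Helper21.RE.Galois
import Pool.Agent.Helper21.RE.Encode

/-! A1: the dichotomy for polynomial systems over `F_p` (no Lang–Weil) -/

set_option autoImplicit false

namespace Pool.Agent.Helper21.RE

open MvPolynomial

/-- dichotomy for exactly `n` variables and `b` equations -/
theorem dich_fin (n D b : ℕ) : ∃ C M : ℕ, 0 < M ∧ ∀ (M' : ℕ), 0 < M' → M ∣ M' → ∀ (p : ℕ) [Fact p.Prime]
    (Φ : Fin b → MvPolynomial (Fin n) (ZMod p)), (∀ i, (Φ i).totalDegree ≤ D) →
      (Nat.card {z : Fin n → ZMod p // ∀ i, MvPolynomial.eval z (Φ i) = 0} ≤ C ∨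
       p ≤ C + Nat.card {z : Fin n → GaloisField p M' // ∀ i, MvPolynomial.aeval z (Φ i) = 0}) := by
  classical
  obtain ⟨C, M, hM, h⟩ := dichotomy (univG n D b) 1
  refine ⟨C, M, hM, ?_⟩
  intro M' hM' hdvd p _ Φ hΦ
  let k := AlgebraicClosure (ZMod p)
  have hk := h p k (fun j : Fin b × (Fin n → Fin (D + 1)) => (Φ j.1).coeff (mon j.2))
  rcases hk with ⟨hfin, hcard⟩ | ⟨s, hs, hfix, hcard⟩
  · left
    refine le_trans ?_ hcard
    rw [← Nat.card_coe_set_eq]
    have := hfin.to_subtype
    refine Nat.card_le_card_of_injective (fun z => ⟨fun t => algebraMap (ZMod p) k (z.1 t), ?_⟩) ?_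
    · rw [mem_univ_iff Φ hΦ]
      intro i
      have h1 := z.2 i
      have h2 : aeval (fun t => algebraMap (ZMod p) k (z.1 t)) (Φ i) = algebraMap (ZMod p) k (eval z.1 (Φ i)) := by
        exact MvPolynomial.aeval_algebraMap_apply k z.1 (Φ i)
      rw [h2, h1, map_zero]
    · intro z w hzw
      apply Subtype.ext
      funext t
      have := congrFun (congrArg Subtype.val hzw) t
      exact (algebraMap (ZMod p) k).injective this
  · right
    obtain ⟨φ, hφ⟩ := exists_galois_lift (p := p) hM' k
    have hφi : Function.Injective φ := φ.toRingHom.injective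
    have hfin : Finite (GaloisField p M') := inferInstance
    refine hcard.trans ?_
    rw [add_comm]
    refine Nat.add_le_add_left ?_ _
    have hfix' : ∀ x ∈ s, ∀ j, x j ^ p ^ M' = x j := by
      intro x hx j
      obtain ⟨r, hr⟩ := hdvd
      rw [hr]
      have : ∀ r : ℕ, x j ^ p ^ (M * r) = x j := by
        intro r
        induction r with
        | zero => simp
        | succ r ih => rw [Nat.mul_succ, pow_add, pow_mul, ih, hfix x hx j]
      exact this r
    have hlift : ∀ x : s, ∃ z : Fin n → GaloisField p M', ∀ j, φ (z j) = x.1 j := by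
      intro x
      choose z hz using fun j => hφ (x.1 j) (hfix' x.1 x.2 j)
      exact ⟨z, hz⟩
    choose Z hZ using hlift
    rw [← Fintype.card_coe, ← Nat.card_eq_fintype_card]
    refine Nat.card_le_card_of_injective (fun x => ⟨Z x, ?_⟩) ?_
    · have h1 := (mem_univ_iff Φ hΦ x.1).1 (hs x.2)
      intro i
      apply hφi
      rw [map_zero, ← h1 i]
      have h2 : x.1 = fun j => φ (Z x j) := funext fun j => (hZ x j).symm
      rw [h2, ← MvPolynomial.comp_aeval_apply]
    · intro x y hxy
      apply Subtype.ext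
      funext j
      have := congrFun (congrArg Subtype.val hxy) j
      rw [← hZ x j, ← hZ y j]
      exact congrArg φ this

end Pool.Agent.Helper21.RE

namespace Pool.Agent.Helper97.RE

open Pool.Agent.Helper21.RE

/-- A1: dichotomy for solution sets of polynomial systems over `F_p` (no Lang-Weil):
few points, or about `p` points over the extension of (fixed) degree `M`. -/
theorem dich (N D B : ℕ) : ∃ C M : ℕ, 0 < M ∧ ∀ (p : ℕ) [Fact p.Prime] (κ ι : Type)
    [Fintype κ] [Fintype ι], Fintype.card κ ≤ N → Fintype.card ι ≤ B →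
    ∀ Φ : ι → MvPolynomial κ (ZMod p), (∀ i, (Φ i).totalDegree ≤ D) →
      (Nat.card {z : κ → ZMod p // ∀ i, MvPolynomial.eval z (Φ i) = 0} ≤ C ∨
       p ≤ C + Nat.card {z : κ → GaloisField p M // ∀ i, MvPolynomial.aeval z (Φ i) = 0}) := by
  classical
  choose C M hM h using fun nb : ℕ × ℕ => dich_fin nb.1 D nb.2
  refine ⟨∑ nb ∈ Finset.range (N + 1) ×ˢ Finset.range (B + 1), C nb,
    ∏ nb ∈ Finset.range (N + 1) ×ˢ Finset.range (B + 1), M nb, Finset.prod_pos fun nb _ => hM nb, ?_⟩
  intro p _ κ ι _ _ hκ hι Φ hΦ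
  set nb : ℕ × ℕ := (Fintype.card κ, Fintype.card ι) with hnb
  have hmem : nb ∈ Finset.range (N + 1) ×ˢ Finset.range (B + 1) := by
    rw [Finset.mem_product, Finset.mem_range, Finset.mem_range]
    exact ⟨Nat.lt_succ_of_le hκ, Nat.lt_succ_of_le hι⟩
  have hC : C nb ≤ ∑ nb ∈ Finset.range (N + 1) ×ˢ Finset.range (B + 1), C nb :=
    Finset.single_le_sum (fun _ _ => Nat.zero_le _) hmem
  have hMd : M nb ∣ ∏ nb ∈ Finset.range (N + 1) ×ˢ Finset.range (B + 1), M nb :=
    Finset.dvd_prod_of_mem _ hmem
  let eκ : κ ≃ Fin (Fintype.card κ) := Fintype.equivFin κ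
  let eι : ι ≃ Fin (Fintype.card ι) := Fintype.equivFin ι
  have key := h nb _ (Finset.prod_pos fun nb _ => hM nb) hMd p
    (fun i => MvPolynomial.rename eκ (Φ (eι.symm i)))
    (fun i => (MvPolynomial.totalDegree_rename_le _ _).trans (hΦ _))
  have hcard : ∀ (R : Type) [Field R] [Algebra (ZMod p) R],
      Nat.card {z : Fin nb.1 → R // ∀ i, MvPolynomial.aeval z (MvPolynomial.rename eκ (Φ (eι.symm i))) = 0} =
      Nat.card {z : κ → R // ∀ i, MvPolynomial.aeval z (Φ i) = 0} := by
    intro R _ _
    refine Nat.card_congr ?_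
    refine Equiv.subtypeEquiv (Equiv.arrowCongr eκ (Equiv.refl R)).symm ?_
    intro z
    constructor
    · intro hz i
      have := hz (eι i)
      rw [MvPolynomial.aeval_rename, Equiv.symm_apply_apply] at this
      exact this
    · intro hz i
      rw [MvPolynomial.aeval_rename]
      exact hz (eι.symm i)
  rcases key with hk | hk
  · left
    have h1 := hcard (ZMod p)
    refine le_trans ?_ (hk.trans hC)
    exact h1.symm.le
  · right
    have h1 := hcard (GaloisField p (∏ nb ∈ Finset.range (N + 1) ×ˢ Finset.range (B + 1), M nb))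
    rw [h1] at hk
    exact hk.trans (Nat.add_le_add_right hC _)

end Pool.Agent.Helper97.RE
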