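import Pool.Agent.Helper21.RE.Slicing

/-! points of an algebraically closed field fixed by the `M`-th power of Frobenius come from `GaloisField p M` -/

set_option autoImplicit false

namespace Pool.Agent.Helper21.RE

open MvPolynomial

/-- fixed points of Frobenius^M lift to the Galois field -/
theorem exists_galois_lift {p M : ℕ} [Fact p.Prime] (hM : 0 < M) (k : Type) [Field k] [IsAlgClosed k]
    [Algebra (ZMod p) k] :
    ∃ φ : GaloisField p M →ₐ[ZMod p] k, ∀ x : k, x ^ p ^ M = x → ∃ z, φ z = x := by
  classical
  have hfin : Finite (GaloisField p M) := inferInstance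
  have := Fintype.ofFinite (GaloisField p M)
  let φ : GaloisField p M →ₐ[ZMod p] k := IsAlgClosed.lift
  refine ⟨φ, fun x hx => ?_⟩
  have hcard : Fintype.card (GaloisField p M) = p ^ M := by
    rw [← Nat.card_eq_fintype_card]
    exact GaloisField.card p M hM.ne'
  have hp1 : 1 < p ^ M := Nat.one_lt_pow hM.ne' (Fact.out : p.Prime).one_lt
  have hne : (Polynomial.X ^ (p ^ M) - Polynomial.X : Polynomial k) ≠ 0 :=
    FiniteField.X_pow_card_pow_sub_X_ne_zero k hM.ne' (Fact.out : p.Prime).one_lt
  have hdeg : (Polynomial.X ^ (p ^ M) - Polynomial.X : Polynomial k).natDegree = p ^ M :=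
    FiniteField.X_pow_card_pow_sub_X_natDegree_eq k hM.ne' (Fact.out : p.Prime).one_lt
  have hsub : (Finset.univ.image φ : Finset k) ⊆
      (Polynomial.X ^ (p ^ M) - Polynomial.X : Polynomial k).roots.toFinset := by
    intro y hy
    rw [Finset.mem_image] at hy
    obtain ⟨z, -, rfl⟩ := hy
    rw [Multiset.mem_toFinset, Polynomial.mem_roots hne]
    simp only [Polynomial.IsRoot.def, Polynomial.eval_sub, Polynomial.eval_pow, Polynomial.eval_X]
    rw [← map_pow, ← hcard, FiniteField.pow_card, sub_self]
  have heq : (Finset.univ.image φ : Finset k) =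
      (Polynomial.X ^ (p ^ M) - Polynomial.X : Polynomial k).roots.toFinset := by
    apply Finset.eq_of_subset_of_card_le hsub
    have hφ : Function.Injective φ := φ.toRingHom.injective
    rw [Finset.card_image_of_injective _ hφ, Finset.card_univ, hcard]
    refine (Multiset.toFinset_card_le _).trans ((Polynomial.card_roots' _).trans ?_)
    rw [hdeg]
  have hmem : x ∈ (Polynomial.X ^ (p ^ M) - Polynomial.X : Polynomial k).roots.toFinset := by
    rw [Multiset.mem_toFinset, Polynomial.mem_roots hne]
    simp [Polynomial.IsRoot.def, hx]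
  rw [← heq, Finset.mem_image] at hmem
  obtain ⟨z, -, hz⟩ := hmem
  exact ⟨z, hz⟩

end Pool.Agent.Helper21.RE
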