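import Pool.Agent.Helper21.RE.Encode

/-! A1': coordinate projections (over the algebraic closure) of polynomial systems over `F_p` of bounded
complexity contain few elements of `F_p` or miss few -/

set_option autoImplicit false

namespace Pool.Agent.Helper21.RE

open MvPolynomial

theorem proj_fin (n D b : ℕ) : ∃ C : ℕ, ∀ (p : ℕ) [Fact p.Prime] (k : Type) [Field k] [IsAlgClosed k]
    [Algebra (ZMod p) k] (Φ : Fin b → MvPolynomial (Fin n) (ZMod p)), (∀ i, (Φ i).totalDegree ≤ D) →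
    ∀ j : Fin n,
      FC C {y : k | ∃ z : Fin n → k, (∀ i, MvPolynomial.aeval z (Φ i) = 0) ∧ z j = y} := by
  classical
  obtain ⟨C, h⟩ := uniformFC (univG n D b) 1
  refine ⟨C, ?_⟩
  intro p _ k _ _ _ Φ hΦ j
  have := h k (fun j : Fin b × (Fin n → Fin (D + 1)) => algebraMap (ZMod p) k ((Φ j.1).coeff (mon j.2))) j
  simp only [mem_univ_iff Φ hΦ] at this
  exact this

/-- restriction of FC to the elements of `F_p` -/
theorem FC.rational {p : ℕ} [Fact p.Prime] {k : Type} [Field k] [Algebra (ZMod p) k] {C : ℕ} {S : Set k}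
    (h : FC C S) : Nat.card {t : ZMod p // algebraMap (ZMod p) k t ∈ S} ≤ C ∨
      Nat.card {t : ZMod p // algebraMap (ZMod p) k t ∉ S} ≤ C := by
  have key : ∀ T : Set k, T.Finite → T.ncard ≤ C →
      Nat.card {t : ZMod p // algebraMap (ZMod p) k t ∈ T} ≤ C := by
    intro T hT hC
    refine le_trans ?_ hC
    rw [← Nat.card_coe_set_eq]
    have := hT.to_subtype
    refine Nat.card_le_card_of_injective (fun t => ⟨algebraMap (ZMod p) k t.1, t.2⟩) ?_
    intro a b hab
    apply Subtype.ext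
    exact (algebraMap (ZMod p) k).injective (congrArg Subtype.val hab)
  rcases h with h | h
  · left; exact key S h.1 h.2
  · right; exact key Sᶜ h.1 h.2

/-- A1' : projections of systems over `F_p` of bounded complexity -/
theorem proj_dich_gen (N D B : ℕ) : ∃ C : ℕ, ∀ (p : ℕ) [Fact p.Prime] (k : Type) [Field k] [IsAlgClosed k]
    [Algebra (ZMod p) k] (κ ι : Type) [Fintype κ] [Fintype ι], Fintype.card κ ≤ N → Fintype.card ι ≤ B →
    ∀ Φ : ι → MvPolynomial κ (ZMod p), (∀ i, (Φ i).totalDegree ≤ D) → ∀ j : κ,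
      (Nat.card {t : ZMod p // ∃ z : κ → k, (∀ i, MvPolynomial.aeval z (Φ i) = 0) ∧
        z j = algebraMap (ZMod p) k t} ≤ C ∨
       Nat.card {t : ZMod p // ¬ ∃ z : κ → k, (∀ i, MvPolynomial.aeval z (Φ i) = 0) ∧
        z j = algebraMap (ZMod p) k t} ≤ C) := by
  classical
  choose C h using fun nb : ℕ × ℕ => proj_fin nb.1 D nb.2
  refine ⟨∑ nb ∈ Finset.range (N + 1) ×ˢ Finset.range (B + 1), C nb, ?_⟩
  intro p _ k _ _ _ κ ι _ _ hκ hι Φ hΦ j
  set nb : ℕ × ℕ := (Fintype.card κ, Fintype.card ι) with hnb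
  have hmem : nb ∈ Finset.range (N + 1) ×ˢ Finset.range (B + 1) := by
    rw [Finset.mem_product, Finset.mem_range, Finset.mem_range]
    exact ⟨Nat.lt_succ_of_le hκ, Nat.lt_succ_of_le hι⟩
  have hC : C nb ≤ ∑ nb ∈ Finset.range (N + 1) ×ˢ Finset.range (B + 1), C nb :=
    Finset.single_le_sum (fun _ _ => Nat.zero_le _) hmem
  let eκ : κ ≃ Fin (Fintype.card κ) := Fintype.equivFin κ
  let eι : ι ≃ Fin (Fintype.card ι) := Fintype.equivFin ι
  have key := (h nb p k (fun i => MvPolynomial.rename eκ (Φ (eι.symm i)))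
    (fun i => (MvPolynomial.totalDegree_rename_le _ _).trans (hΦ _)) (eκ j)).mono hC
  have hset : {y : k | ∃ z : Fin nb.1 → k,
      (∀ i, MvPolynomial.aeval z (MvPolynomial.rename eκ (Φ (eι.symm i))) = 0) ∧ z (eκ j) = y} =
      {y : k | ∃ z : κ → k, (∀ i, MvPolynomial.aeval z (Φ i) = 0) ∧ z j = y} := by
    ext y
    constructor
    · rintro ⟨z, hz, hzj⟩
      refine ⟨z ∘ eκ, fun i => ?_, hzj⟩
      have := hz (eι i)
      rw [MvPolynomial.aeval_rename, Equiv.symm_apply_apply] at this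
      exact this
    · rintro ⟨z, hz, hzj⟩
      refine ⟨z ∘ eκ.symm, fun i => ?_, by simpa using hzj⟩
      rw [MvPolynomial.aeval_rename]
      have : (z ∘ eκ.symm) ∘ eκ = z := by funext t; simp
      rw [this]
      exact hz (eι.symm i)
  rw [hset] at key
  exact key.rational

end Pool.Agent.Helper21.RE

namespace Pool.Agent.Helper97.RE

/-- A1' : coordinate projections of solution sets over the algebraic closure. -/
theorem proj_dich (N D B : ℕ) : ∃ C : ℕ, ∀ (p : ℕ) [Fact p.Prime] (κ ι : Type)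
    [Fintype κ] [Fintype ι], Fintype.card κ ≤ N → Fintype.card ι ≤ B →
    ∀ Φ : ι → MvPolynomial κ (ZMod p), (∀ i, (Φ i).totalDegree ≤ D) → ∀ k : κ,
      (Nat.card {t : ZMod p // ∃ z : κ → AlgebraicClosure (ZMod p),
          (∀ i, MvPolynomial.aeval z (Φ i) = 0) ∧ z k = algebraMap _ _ t} ≤ C ∨
       Nat.card {t : ZMod p // ¬ ∃ z : κ → AlgebraicClosure (ZMod p),
          (∀ i, MvPolynomial.aeval z (Φ i) = 0) ∧ z k = algebraMap _ _ t} ≤ C) := by
  obtain ⟨C, h⟩ := Pool.Agent.Helper21.RE.proj_dich_gen N D B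
  exact ⟨C, fun p _ κ ι _ _ hκ hι Φ hΦ k => h p (AlgebraicClosure (ZMod p)) κ ι hκ hι Φ hΦ k⟩

end Pool.Agent.Helper97.RE
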