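import Pool.Agent.Helper21.RE.UniformFC

/-!
Dichotomy for families of locally closed sets over `F_q`, `q` prime: few points over the algebraic closure or
about `q` points over the extension of (fixed) degree `M`.
-/

set_option autoImplicit false

namespace Pool.Agent.Helper21.RE

open MvPolynomial

section slices

variable {σ τ : Type}

/-- lifting a universal polynomial to the parameter set `σ ⊕ τ` -/
noncomputable def lft : MvPolynomial τ (MvPolynomial σ ℤ) →+* MvPolynomial τ (MvPolynomial (σ ⊕ τ) ℤ) :=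
  MvPolynomial.map (rename (R := ℤ) (Sum.inl : σ → σ ⊕ τ)).toRingHom

theorem ev_lft {k : Type} [CommRing k] (c : σ → k) (a x : τ → k) (g : MvPolynomial τ (MvPolynomial σ ℤ)) :
    ev (Sum.elim c a) x (lft g) = ev c x g := by
  have : (ev (Sum.elim c a) x).comp lft = ev c x := by
    apply MvPolynomial.ringHom_ext
    · intro z
      simp only [RingHom.comp_apply, lft, map_C, ev, coe_eval₂Hom, eval₂_C]
      change eval₂ (Int.castRingHom k) (Sum.elim c a) (rename Sum.inl z) = _
      rw [eval₂_rename]
      rfl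
    · intro t
      simp [lft, ev]
  exact DFunLike.congr_fun this g

open Classical in
/-- equations of a slice -/
noncomputable def sliceG (G : Finset (MvPolynomial τ (MvPolynomial σ ℤ))) (J : Finset τ) :
    Finset (MvPolynomial τ (MvPolynomial (σ ⊕ τ) ℤ)) :=
  G.image lft ∪ J.image (fun j => X j - C (X (Sum.inr j)))

theorem mem_slice {k : Type} [CommRing k] (G : Finset (MvPolynomial τ (MvPolynomial σ ℤ)))
    (h : MvPolynomial τ (MvPolynomial σ ℤ)) (J : Finset τ) (c : σ → k) (a x : τ → k) :
    x ∈ Loc (sliceG G J) (lft h) (Sum.elim c a) ↔ x ∈ Loc G h c ∧ ∀ j ∈ J, x j = a j := by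
  classical
  simp only [Loc, sliceG, Finset.mem_union, Finset.mem_image, Set.mem_ofPred_eq, ev_lft]
  constructor
  · rintro ⟨h1, h2⟩
    refine ⟨⟨fun g hg => ?_, h2⟩, fun j hj => ?_⟩
    · rw [← ev_lft c a]
      exact h1 _ (Or.inl ⟨g, hg, rfl⟩)
    · have := h1 _ (Or.inr ⟨j, hj, rfl⟩)
      simpa [ev, sub_eq_zero] using this
  · rintro ⟨⟨h1, h2⟩, h3⟩
    refine ⟨?_, h2⟩
    rintro g (⟨g, hg, rfl⟩ | ⟨j, hj, rfl⟩)
    · rw [ev_lft]; exact h1 g hg
    · simp [ev, h3 j hj]

theorem uniformSlices [Finite τ] (G : Finset (MvPolynomial τ (MvPolynomial σ ℤ)))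
    (h : MvPolynomial τ (MvPolynomial σ ℤ)) :
    ∃ N : ℕ, 1 ≤ N ∧ ∀ (k : Type) [Field k] [IsAlgClosed k] (c : σ → k) (a : τ → k) (J : Finset τ) (j : τ),
      FC N {y | ∃ x, (x ∈ Loc G h c ∧ ∀ i ∈ J, x i = a i) ∧ x j = y} := by
  classical
  have := Fintype.ofFinite τ
  choose N hN using fun J : Finset τ => uniformFC (sliceG G J) (lft h)
  refine ⟨∑ J, N J + 1, Nat.le_add_left _ _, fun k _ _ c a J j => ?_⟩
  have := hN J k (Sum.elim c a) j
  simp only [mem_slice] at this
  refine this.mono ?_
  exact (Finset.single_le_sum (fun _ _ => Nat.zero_le _) (Finset.mem_univ J)).trans (Nat.le_add_right _ _)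

end slices

section frob

variable {σ τ : Type} {k : Type} [Field k] (q : ℕ) [Fact q.Prime] [CharP k q]

theorem ev_frob (c : σ → k) (x : τ → k) (g : MvPolynomial τ (MvPolynomial σ ℤ)) :
    ev (fun i => c i ^ q) (fun t => x t ^ q) g = (ev c x g) ^ q := by
  have : ev (fun i => c i ^ q) (fun t => x t ^ q) = (frobenius k q).comp (ev c x) := by
    apply MvPolynomial.ringHom_ext
    · intro z
      have h2 : (eval₂Hom (Int.castRingHom k) (fun i => c i ^ q)) =
          (frobenius k q).comp (eval₂Hom (Int.castRingHom k) c) := by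
        apply MvPolynomial.ringHom_ext
        · intro z
          simp [frobenius_def]
        · intro i
          simp [frobenius_def]
      have h3 := DFunLike.congr_fun h2 z
      simp only [ev, coe_eval₂Hom, eval₂_C, RingHom.comp_apply] at h3 ⊢
      exact h3
    · intro t
      simp [ev, frobenius_def]
  rw [this]
  rfl

/-- the slice as a set -/
def Sl (G : Finset (MvPolynomial τ (MvPolynomial σ ℤ))) (h : MvPolynomial τ (MvPolynomial σ ℤ))
    (c : σ → k) (a : τ → k) (J : Finset τ) : Set (τ → k) :=
  {x | x ∈ Loc G h c ∧ ∀ i ∈ J, x i = a i}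

theorem frob_mem (G : Finset (MvPolynomial τ (MvPolynomial σ ℤ))) (h : MvPolynomial τ (MvPolynomial σ ℤ))
    (c : σ → k) (hc : ∀ i, c i ^ q = c i) (a : τ → k) (ha : ∀ i, a i ^ q = a i) (J : Finset τ)
    (x : τ → k) (hx : x ∈ Sl G h c a J) : (fun t => x t ^ q) ∈ Sl G h c a J := by
  have hc' : (fun i => c i ^ q) = c := funext hc
  obtain ⟨⟨h1, h2⟩, h3⟩ := hx
  refine ⟨⟨fun g hg => ?_, ?_⟩, fun i hi => ?_⟩
  · have := ev_frob q c x g
    rw [hc', h1 g hg, zero_pow (Fact.out : q.Prime).ne_zero] at this
    exact this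
  · have := ev_frob q c x h
    rw [hc'] at this
    rw [this]
    exact pow_ne_zero _ h2
  · simp only [h3 i hi, ha i]

/-- a finite Frobenius-stable set consists of points of bounded degree -/
theorem finite_point (S : Set (τ → k)) (hS : S.Finite) (hF : ∀ x ∈ S, (fun t => x t ^ q) ∈ S)
    (m : ℕ) (hm : S.ncard ≤ m) (x : τ → k) (hx : x ∈ S) (t : τ) : x t ^ q ^ m.factorial = x t := by
  classical
  have := hS.fintype
  let f : S → S := fun y => ⟨fun t => y.1 t ^ q, hF y.1 y.2⟩
  have hf : Function.Injective f := by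
    intro y z hyz
    apply Subtype.ext
    funext t
    have h1 := congrFun (congrArg Subtype.val hyz) t
    exact (frobenius_inj k q) h1
  let π : Equiv.Perm S := Equiv.ofBijective f (Finite.injective_iff_bijective.1 hf)
  have hπ : ∀ (n : ℕ) (y : S) (t : τ), ((π ^ n) y).1 t = y.1 t ^ q ^ n := by
    intro n
    induction n with
    | zero => intro y t; simp
    | succ n ih =>
      intro y t
      rw [pow_succ', Equiv.Perm.mul_apply]
      change (f ((π ^ n) y)).1 t = _
      change ((π ^ n) y).1 t ^ q = _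
      rw [ih, ← pow_mul, pow_succ]
  have hcard : Fintype.card S ≤ m := by
    rw [← Set.toFinset_card, ← Set.ncard_eq_toFinset_card']
    exact hm
  have h1 : π ^ m.factorial = 1 := by
    obtain ⟨r, hr⟩ : (Fintype.card S).factorial ∣ m.factorial := Nat.factorial_dvd_factorial hcard
    rw [hr, pow_mul, ← Fintype.card_perm, pow_card_eq_one, one_pow]
  have h2 := hπ m.factorial ⟨x, hx⟩ t
  rw [h1] at h2
  exact h2.symm

end frob

/-- cardinality bound from coordinate projections -/
theorem box_bound {τ k : Type} [Fintype τ] (S : Set (τ → k)) (N : ℕ)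
    (h : ∀ j : τ, {y | ∃ x, x ∈ S ∧ x j = y}.Finite ∧ {y | ∃ x, x ∈ S ∧ x j = y}.ncard ≤ N) :
    S.Finite ∧ S.ncard ≤ N ^ Fintype.card τ := by
  classical
  let P : τ → Finset k := fun j => (h j).1.toFinset
  have hsub : S ⊆ (Fintype.piFinset P : Set (τ → k)) := by
    intro x hx
    rw [Finset.mem_coe, Fintype.mem_piFinset]
    intro j
    simp only [P, Set.Finite.mem_toFinset]
    exact ⟨x, hx, rfl⟩
  refine ⟨(Finset.finite_toSet _).subset hsub, ?_⟩
  refine (Set.ncard_le_ncard hsub (Finset.finite_toSet _)).trans ?_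
  rw [Set.ncard_coe_finset, Fintype.card_piFinset]
  refine (Finset.prod_le_pow_card _ _ N ?_).trans_eq (by rw [Finset.card_univ])
  intro j _
  have := (h j).2
  rwa [Set.ncard_eq_toFinset_card _ (h j).1] at this

section main

variable {σ τ : Type} [Fintype τ]

theorem exists_rational {q : ℕ} [Fact q.Prime] {k : Type} [Field k] [Algebra (ZMod q) k] (D : Set k) (N : ℕ)
    (hN : N < q) (hD : Dᶜ.Finite ∧ Dᶜ.ncard ≤ N) : ∃ b : ZMod q, algebraMap (ZMod q) k b ∈ D := by
  classical
  by_contra hcon
  push Not at hcon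
  have h1 : ((Finset.univ.image (algebraMap (ZMod q) k) : Finset k) : Set k) ⊆ Dᶜ := by
    intro y hy
    rw [Finset.coe_image] at hy
    obtain ⟨b, -, rfl⟩ := hy
    exact hcon b
  have h2 := Set.ncard_le_ncard h1 hD.1
  rw [Set.ncard_coe_finset, Finset.card_image_of_injective _ (algebraMap (ZMod q) k).injective,
    Finset.card_univ, ZMod.card] at h2
  omega

theorem exists_point (G : Finset (MvPolynomial τ (MvPolynomial σ ℤ)))
    (h : MvPolynomial τ (MvPolynomial σ ℤ)) (N : ℕ) (hN1 : 1 ≤ N) {q : ℕ} [Fact q.Prime] (hq : N < q)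
    (k : Type) [Field k] [IsAlgClosed k] [Algebra (ZMod q) k]
    (hN : ∀ (c : σ → k) (a : τ → k) (J : Finset τ) (j : τ),
      FC N {y | ∃ x, (x ∈ Loc G h c ∧ ∀ i ∈ J, x i = a i) ∧ x j = y})
    (c : σ → ZMod q) :
    ∀ (n : ℕ) (J : Finset τ) (a : τ → ZMod q), Fintype.card τ ≤ J.card + n →
      (Sl G h (fun i => algebraMap (ZMod q) k (c i)) (fun i => algebraMap (ZMod q) k (a i)) J).Nonempty →
      ∃ x ∈ Sl G h (fun i => algebraMap (ZMod q) k (c i)) (fun i => algebraMap (ZMod q) k (a i)) J,
        ∀ j, x j ^ q ^ (N ^ Fintype.card τ).factorial = x j := by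
  classical
  have : CharP k q := charP_of_injective_algebraMap (algebraMap (ZMod q) k).injective q
  have hrat : ∀ b : ZMod q, algebraMap (ZMod q) k b ^ q = algebraMap (ZMod q) k b := by
    intro b
    rw [← map_pow, ZMod.pow_card]
  intro n
  induction n with
  | zero =>
    intro J a hJ hne
    have hJu : J = Finset.univ := by
      apply Finset.eq_univ_of_card
      exact le_antisymm (Finset.card_le_univ _) (by simpa using hJ)
    obtain ⟨x, hx⟩ := hne
    refine ⟨x, hx, fun j => ?_⟩
    rw [hx.2 j (by rw [hJu]; exact Finset.mem_univ j)]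
    have : ∀ m : ℕ, algebraMap (ZMod q) k (a j) ^ q ^ m = algebraMap (ZMod q) k (a j) := by
      intro m
      induction m with
      | zero => simp
      | succ m ih => rw [pow_succ, pow_mul, ih, hrat]
    exact this _
  | succ n ih =>
    intro J a hJ hne
    by_cases hbig : ∃ j, j ∉ J ∧ ¬ ({y | ∃ x, (x ∈ Loc G h (fun i => algebraMap (ZMod q) k (c i)) ∧
        ∀ i ∈ J, x i = algebraMap (ZMod q) k (a i)) ∧ x j = y}.Finite ∧
        {y | ∃ x, (x ∈ Loc G h (fun i => algebraMap (ZMod q) k (c i)) ∧
        ∀ i ∈ J, x i = algebraMap (ZMod q) k (a i)) ∧ x j = y}.ncard ≤ N)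
    · obtain ⟨j, hj, hbad⟩ := hbig
      have hfc := (hN (fun i => algebraMap (ZMod q) k (c i)) (fun i => algebraMap (ZMod q) k (a i)) J j).resolve_left
        hbad
      obtain ⟨b, x, ⟨hx1, hx2⟩, hx3⟩ := exists_rational _ N hq hfc
      obtain ⟨z, hz, hz'⟩ := ih (insert j J) (Function.update a j b)
        (by rw [Finset.card_insert_of_notMem hj]; omega)
        ⟨x, hx1, by
          intro i hi
          rw [Finset.mem_insert] at hi
          rcases hi with rfl | hi
          · simp [hx3]
          · have hne : i ≠ j := by rintro rfl; exact hj hi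
            simp only [Function.update_of_ne hne]
            exact hx2 i hi⟩
      refine ⟨z, ⟨hz.1, fun i hi => ?_⟩, hz'⟩
      have hne : i ≠ j := by rintro rfl; exact hj hi
      have := hz.2 i (Finset.mem_insert_of_mem hi)
      simpa only [Function.update_of_ne hne] using this
    · push Not at hbig
      have hbox := box_bound (Sl G h (fun i => algebraMap (ZMod q) k (c i))
        (fun i => algebraMap (ZMod q) k (a i)) J) N (by
          intro j
          by_cases hj : j ∈ J
          · have hsub : {y | ∃ x, x ∈ Sl G h (fun i => algebraMap (ZMod q) k (c i))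
                (fun i => algebraMap (ZMod q) k (a i)) J ∧ x j = y} ⊆ {algebraMap (ZMod q) k (a j)} := by
              rintro y ⟨x, hx, rfl⟩
              exact hx.2 j hj
            refine ⟨(Set.finite_singleton _).subset hsub, ?_⟩
            refine (Set.ncard_le_ncard hsub (Set.finite_singleton _)).trans ?_
            rw [Set.ncard_singleton]
            exact hN1
          · exact hbig j hj)
      obtain ⟨x, hx⟩ := hne
      refine ⟨x, hx, fun j => ?_⟩
      exact finite_point q _ hbox.1 (fun x hx => frob_mem q G h _ (fun i => hrat _) _ (fun i => hrat _) J x hx) _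
        hbox.2 x hx j

/-- **Dichotomy**: a member of an algebraic family with parameters in `F_q` has few points over the algebraic
closure, or at least `q - C` points over the extension of degree `M`. -/
theorem dichotomy (G : Finset (MvPolynomial τ (MvPolynomial σ ℤ))) (h : MvPolynomial τ (MvPolynomial σ ℤ)) :
    ∃ C M : ℕ, 0 < M ∧ ∀ (q : ℕ) [Fact q.Prime] (k : Type) [Field k] [IsAlgClosed k] [Algebra (ZMod q) k]
      (c : σ → ZMod q),
      ((Loc G h (fun i => algebraMap (ZMod q) k (c i))).Finite ∧
        (Loc G h (fun i => algebraMap (ZMod q) k (c i))).ncard ≤ C) ∨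
      ∃ s : Finset (τ → k), (s : Set (τ → k)) ⊆ Loc G h (fun i => algebraMap (ZMod q) k (c i)) ∧
        (∀ x ∈ s, ∀ j, x j ^ q ^ M = x j) ∧ q ≤ s.card + C := by
  classical
  obtain ⟨N, hN1, hN⟩ := uniformSlices G h
  refine ⟨N ^ Fintype.card τ + N, (N ^ Fintype.card τ).factorial, Nat.factorial_pos _, ?_⟩
  intro q _ k _ _ _ c
  by_cases hqN : q ≤ N
  · right
    exact ⟨∅, by simp, by simp, by simp; omega⟩
  push Not at hqN
  set c' : σ → k := fun i => algebraMap (ZMod q) k (c i) with hc'
  by_cases hall : ∀ j, {y | ∃ x, x ∈ Loc G h c' ∧ x j = y}.Finite ∧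
      {y | ∃ x, x ∈ Loc G h c' ∧ x j = y}.ncard ≤ N
  · left
    have := box_bound (Loc G h c') N hall
    exact ⟨this.1, this.2.trans (Nat.le_add_right _ _)⟩
  · right
    push Not at hall
    obtain ⟨j, hj⟩ := hall
    have hfc := hN k c' (fun _ => 0) ∅ j
    simp only [Finset.notMem_empty, false_imp_iff, implies_true, and_true] at hfc
    have hco := hfc.resolve_left (fun hh => absurd hh.2 (not_le.2 (hj hh.1)))
    let B : Finset (ZMod q) := Finset.univ.filter
      (fun b => algebraMap (ZMod q) k b ∈ {y | ∃ x, x ∈ Loc G h c' ∧ x j = y})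
    have hB : q ≤ B.card + N := by
      have h1' : (((Finset.univ.filter (fun b => ¬ algebraMap (ZMod q) k b ∈
          {y | ∃ x, x ∈ Loc G h c' ∧ x j = y})).image (algebraMap (ZMod q) k) : Finset k) : Set k) ⊆
          {y | ∃ x, x ∈ Loc G h c' ∧ x j = y}ᶜ := by
        intro y hy
        rw [Finset.mem_coe, Finset.mem_image] at hy
        obtain ⟨b, hb, rfl⟩ := hy
        exact (Finset.mem_filter.1 hb).2
      have h2 := Set.ncard_le_ncard h1' hco.1
      rw [Set.ncard_coe_finset, Finset.card_image_of_injective _ (algebraMap (ZMod q) k).injective] at h2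
      have h3 := Finset.card_filter_add_card_filter_not (s := (Finset.univ : Finset (ZMod q)))
        (fun b => algebraMap (ZMod q) k b ∈ {y | ∃ x, x ∈ Loc G h c' ∧ x j = y})
      rw [Finset.card_univ, ZMod.card] at h3
      have h4 := hco.2
      change q ≤ (Finset.univ.filter (fun b => algebraMap (ZMod q) k b ∈
        {y | ∃ x, x ∈ Loc G h c' ∧ x j = y})).card + N
      omega
    have hpt : ∀ b : ZMod q, b ∈ B → ∃ x ∈ Loc G h c', x j = algebraMap (ZMod q) k b ∧
        ∀ i, x i ^ q ^ (N ^ Fintype.card τ).factorial = x i := by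
      intro b hb
      obtain ⟨x0, hx0, hx0'⟩ := (Finset.mem_filter.1 hb).2
      obtain ⟨x, hx, hx'⟩ := exists_point G h N hN1 hqN k (fun c a J j => hN k c a J j) c
        (Fintype.card τ) {j} (fun _ => b) (by omega) ⟨x0, hx0, by
          intro i hi
          rw [Finset.mem_singleton] at hi
          subst hi
          exact hx0'⟩
      exact ⟨x, hx.1, hx.2 j (Finset.mem_singleton_self j), hx'⟩
    choose! X hX1 hX2 hX3 using hpt
    refine ⟨B.image X, ?_, ?_, ?_⟩
    · intro x hx
      rw [Finset.mem_coe, Finset.mem_image] at hx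
      obtain ⟨b, hb, rfl⟩ := hx
      exact hX1 b hb
    · intro x hx
      rw [Finset.mem_image] at hx
      obtain ⟨b, hb, rfl⟩ := hx
      exact hX3 b hb
    · have : (B.image X).card = B.card := by
        apply Finset.card_image_of_injOn
        intro b hb b' hb' hbb
        have h1 := hX2 b hb
        have h2 := hX2 b' hb'
        rw [hbb, h2] at h1
        exact ((algebraMap (ZMod q) k).injective h1).symm
      rw [this]
      omega

end main

end Pool.Agent.Helper21.RE
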