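import Mathlib

/-!
Uniform finite/cofinite bounds for coordinate projections of locally closed sets over algebraically closed
fields (universal family over `ℤ` + Chevalley's theorem).
-/

set_option autoImplicit false

namespace Pool.Agent.Helper21.RE

open MvPolynomial

/-- amalgamation of two field-valued points with the same kernel -/
theorem amalg {B k L : Type} [CommRing B] [Field k] [Field L] (ψ : B →+* k) (φ : B →+* L)
    (h : RingHom.ker ψ = RingHom.ker φ) :
    ∃ (Ω : Type) (_ : Field Ω) (a : k →+* Ω) (b : L →+* Ω), a.comp ψ = b.comp φ := by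
  classical
  have hprime : (RingHom.ker ψ).IsPrime := RingHom.ker_isPrime ψ
  let ψ' : B ⧸ RingHom.ker ψ →+* k := RingHom.kerLift ψ
  let φ' : B ⧸ RingHom.ker ψ →+* L := Ideal.Quotient.lift (RingHom.ker ψ) φ (by
    intro x hx; rw [h] at hx; exact hx)
  have hψ' : Function.Injective ψ' := RingHom.kerLift_injective ψ
  have hφ' : Function.Injective φ' := by
    rw [injective_iff_map_eq_zero]
    intro x
    obtain ⟨x, rfl⟩ := Ideal.Quotient.mk_surjective x
    intro hx
    have hx' : φ x = 0 := hx
    rw [Ideal.Quotient.eq_zero_iff_mem, h]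
    exact hx'
  let F := FractionRing (B ⧸ RingHom.ker ψ)
  let u : F →+* k := IsFractionRing.lift (A := B ⧸ RingHom.ker ψ) (K := F) (g := ψ') hψ'
  let v : F →+* L := IsFractionRing.lift (A := B ⧸ RingHom.ker ψ) (K := F) (g := φ') hφ'
  let _ : Algebra F k := u.toAlgebra
  let _ : Algebra F L := v.toAlgebra
  have hinj : Function.Injective (Algebra.TensorProduct.includeLeft : k →ₐ[F] TensorProduct F k L) :=
    Algebra.TensorProduct.includeLeft_injective (S := F) (algebraMap F L).injective
  have _ : Nontrivial (TensorProduct F k L) := hinj.nontrivial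
  obtain ⟨m, hm⟩ := Ideal.exists_maximal (TensorProduct F k L)
  let _ : Field (TensorProduct F k L ⧸ m) := Ideal.Quotient.field m
  refine ⟨TensorProduct F k L ⧸ m, inferInstance,
    (Ideal.Quotient.mk m).comp (Algebra.TensorProduct.includeLeft (R := F) (S := F) (A := k) (B := L)).toRingHom,
    (Ideal.Quotient.mk m).comp (Algebra.TensorProduct.includeRight (R := F) (A := k) (B := L)).toRingHom, ?_⟩
  ext x
  have h1 : ψ x = algebraMap F k (algebraMap (B ⧸ RingHom.ker ψ) F (Ideal.Quotient.mk _ x)) := by
    change ψ x = u _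
    rw [IsFractionRing.lift_algebraMap]
    rfl
  have h2 : φ x = algebraMap F L (algebraMap (B ⧸ RingHom.ker ψ) F (Ideal.Quotient.mk _ x)) := by
    change φ x = v _
    rw [IsFractionRing.lift_algebraMap]
    rfl
  simp only [RingHom.comp_apply, AlgHom.toRingHom_eq_coe, RingHom.coe_coe]
  rw [h1, h2, AlgHom.commutes, AlgHom.commutes]

/-- a prime is the kernel of a ring hom to a field -/
theorem exists_field_point {S : Type} [CommRing S] (Q : Ideal S) (hQ : Q.IsPrime) :
    ∃ (L : Type) (_ : Field L) (π : S →+* L), ∀ z, π z = 0 ↔ z ∈ Q := by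
  refine ⟨FractionRing (S ⧸ Q), inferInstance,
    (algebraMap (S ⧸ Q) (FractionRing (S ⧸ Q))).comp (Ideal.Quotient.mk Q), ?_⟩
  intro z
  simp only [RingHom.comp_apply]
  rw [map_eq_zero_iff _ (IsFractionRing.injective _ (FractionRing (S ⧸ Q))), Ideal.Quotient.eq_zero_iff_mem]

section family

variable {σ τ : Type}

/-- evaluation of a universal polynomial at the parameters `c` and the point `x` -/
noncomputable def ev {k : Type} [CommRing k] (c : σ → k) (x : τ → k) :
    MvPolynomial τ (MvPolynomial σ ℤ) →+* k :=
  MvPolynomial.eval₂Hom (MvPolynomial.eval₂Hom (Int.castRingHom k) c) x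

/-- the locally closed set cut out by `G = 0`, `h ≠ 0` at the parameters `c` -/
def Loc {k : Type} [CommRing k] (G : Finset (MvPolynomial τ (MvPolynomial σ ℤ)))
    (h : MvPolynomial τ (MvPolynomial σ ℤ)) (c : σ → k) : Set (τ → k) :=
  {x | (∀ g ∈ G, ev c x g = 0) ∧ ev c x h ≠ 0}

/-- the inclusion of `A[Y]`, `Y ↦ X j` -/
noncomputable def coordHom (j : τ) :
    Polynomial (MvPolynomial σ ℤ) →+* MvPolynomial τ (MvPolynomial σ ℤ) :=
  Polynomial.eval₂RingHom MvPolynomial.C (X j)

/-- evaluation on `A[Y]` -/
noncomputable def evY {k : Type} [CommRing k] (c : σ → k) (y : k) :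
    Polynomial (MvPolynomial σ ℤ) →+* k :=
  Polynomial.eval₂RingHom (MvPolynomial.eval₂Hom (Int.castRingHom k) c) y

theorem ev_comp_coordHom {k : Type} [CommRing k] (c : σ → k) (x : τ → k) (j : τ) :
    (ev c x).comp (coordHom j) = evY c (x j) := by
  apply Polynomial.ringHom_ext
  · intro a
    simp [ev, evY, coordHom]
  · simp [ev, evY, coordHom]

/-- the point of the prime spectrum of a field valued point -/
noncomputable def pt {B k : Type} [CommRing B] [Field k] (ψ : B →+* k) : PrimeSpectrum B :=
  ⟨RingHom.ker ψ, RingHom.ker_isPrime ψ⟩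

theorem mem_image_iff {k : Type} [Field k] [IsAlgClosed k] [Finite τ]
    (G : Finset (MvPolynomial τ (MvPolynomial σ ℤ)))
    (h : MvPolynomial τ (MvPolynomial σ ℤ)) (c : σ → k) (y : k) (j : τ) :
    pt (evY c y) ∈ PrimeSpectrum.comap (coordHom j) ''
      (PrimeSpectrum.zeroLocus (G : Set (MvPolynomial τ (MvPolynomial σ ℤ))) \
        PrimeSpectrum.zeroLocus {h}) ↔ ∃ x ∈ Loc G h c, x j = y := by
  classical
  constructor
  · rintro ⟨Q, ⟨hQG, hQh⟩, hQ⟩
    by_contra hno
    push Not at hno
    -- the ideal of the fibre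
    let mc : MvPolynomial τ (MvPolynomial σ ℤ) →+* MvPolynomial τ k :=
      MvPolynomial.map (MvPolynomial.eval₂Hom (Int.castRingHom k) c)
    have hmc : ∀ (x : τ → k) (g), MvPolynomial.aeval x (mc g) = ev c x g := by
      intro x g
      have : ((MvPolynomial.aeval x : MvPolynomial τ k →ₐ[k] k) : MvPolynomial τ k →+* k).comp mc = ev c x := by
        apply MvPolynomial.ringHom_ext
        · intro a; simp [mc, ev]
        · intro t; simp [mc, ev]
      exact DFunLike.congr_fun this g
    let I : Ideal (MvPolynomial τ k) := Ideal.span ((mc '' (G : Set _)) ∪ {X j - C y})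
    have hrad : mc h ∈ I.radical := by
      rw [← MvPolynomial.vanishingIdeal_zeroLocus_eq_radical (K := k)]
      intro x hx
      rw [hmc]
      by_contra hne
      refine hno x ⟨?_, hne⟩ ?_
      · intro g hg
        rw [← hmc]
        exact hx _ (Ideal.subset_span (Or.inl ⟨g, hg, rfl⟩))
      · have := hx (X j - C y) (Ideal.subset_span (Or.inr rfl))
        simpa [sub_eq_zero] using this
    obtain ⟨N, hN⟩ := hrad
    -- the generic point
    obtain ⟨L, _, π, hπ⟩ := exists_field_point Q.asIdeal Q.isPrime
    have hker : RingHom.ker (evY c y) = RingHom.ker (π.comp (coordHom j)) := by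
      have h1 : (PrimeSpectrum.comap (coordHom j) Q).asIdeal = RingHom.ker (evY c y) := by
        rw [hQ]; rfl
      rw [← h1]
      ext z
      simp only [PrimeSpectrum.comap_asIdeal, Ideal.mem_comap, RingHom.mem_ker, RingHom.comp_apply]
      exact (hπ _).symm
    obtain ⟨Ω, _, a, b, hab⟩ := amalg (evY c y) (π.comp (coordHom j)) hker
    let θ : MvPolynomial τ k →+* Ω := MvPolynomial.eval₂Hom a (fun t => b (π (X t)))
    have hθ : θ.comp mc = b.comp π := by
      apply MvPolynomial.ringHom_ext
      · intro z
        have := DFunLike.congr_fun hab (Polynomial.C z)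
        simp only [RingHom.comp_apply, evY, coordHom, Polynomial.coe_eval₂RingHom,
          Polynomial.eval₂_C] at this
        simp only [θ, mc, RingHom.comp_apply, MvPolynomial.map_C, MvPolynomial.coe_eval₂Hom,
          MvPolynomial.eval₂_C] at this ⊢
        exact this
      · intro t
        simp [θ, mc]
    have hI : ∀ p ∈ I, θ p = 0 := by
      intro p hp
      have : I ≤ RingHom.ker θ := by
        rw [Ideal.span_le]
        rintro p (⟨g, hg, rfl⟩ | hp)
        · change θ (mc g) = 0
          have := DFunLike.congr_fun hθ g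
          simp only [RingHom.comp_apply] at this
          rw [this, (hπ g).2 (hQG hg), map_zero]
        · rw [Set.mem_singleton_iff] at hp
          subst hp
          change θ (X j - C y) = 0
          have := DFunLike.congr_fun hab Polynomial.X
          simp only [RingHom.comp_apply, evY, coordHom, Polynomial.coe_eval₂RingHom,
            Polynomial.eval₂_X] at this
          simp only [θ, map_sub, MvPolynomial.coe_eval₂Hom, MvPolynomial.eval₂_X, MvPolynomial.eval₂_C]
          rw [this, sub_self]
      exact this hp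
    have h0 := hI _ hN
    rw [map_pow] at h0
    have h1 : θ (mc h) = 0 := by
      by_contra hne
      exact pow_ne_zero N hne h0
    have h2 := DFunLike.congr_fun hθ h
    simp only [RingHom.comp_apply] at h2
    rw [h1] at h2
    have h3 : π h = 0 := by
      rw [← map_eq_zero_iff b b.injective]
      exact h2.symm
    apply hQh
    rw [PrimeSpectrum.mem_zeroLocus, Set.singleton_subset_iff]
    exact (hπ h).1 h3
  · rintro ⟨x, ⟨hG, hh⟩, rfl⟩
    refine ⟨pt (ev c x), ⟨?_, ?_⟩, ?_⟩
    · intro g hg
      exact hG g hg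
    · intro h0
      apply hh
      exact h0 rfl
    · apply PrimeSpectrum.ext
      rw [PrimeSpectrum.comap_asIdeal]
      change (RingHom.ker (ev c x)).comap (coordHom j) = RingHom.ker (evY c (x j))
      rw [← ev_comp_coordHom, RingHom.comap_ker]

theorem finitePresentation_coordHom [Finite τ] (j : τ) :
    (coordHom (σ := σ) j).FinitePresentation := by
  apply RingHom.FinitePresentation.of_comp_finiteType (Polynomial.C : MvPolynomial σ ℤ →+* _)
  · have h1 : (coordHom (σ := σ) j).comp Polynomial.C = algebraMap (MvPolynomial σ ℤ)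
        (MvPolynomial τ (MvPolynomial σ ℤ)) := by
      ext <;> simp [coordHom, MvPolynomial.algebraMap_eq]
    rw [h1, RingHom.finitePresentation_algebraMap]
    infer_instance
  · have h2 : (Polynomial.C : MvPolynomial σ ℤ →+* _) =
      algebraMap (MvPolynomial σ ℤ) (Polynomial (MvPolynomial σ ℤ)) := rfl
    rw [h2, RingHom.finiteType_algebraMap]
    infer_instance

/-- finite or cofinite with bound `N` -/
def FC {k : Type} (N : ℕ) (D : Set k) : Prop :=
  (D.Finite ∧ D.ncard ≤ N) ∨ (Dᶜ.Finite ∧ Dᶜ.ncard ≤ N)

theorem FC.mono {k : Type} {N N' : ℕ} {D : Set k} (h : FC N D) (hN : N ≤ N') : FC N' D :=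
  h.imp (fun h => ⟨h.1, h.2.trans hN⟩) (fun h => ⟨h.1, h.2.trans hN⟩)

/-- **Uniform strong minimality**: coordinate projections of the members of an algebraic family are finite or
cofinite, with a uniform bound. -/
theorem uniformFC [Finite τ] (G : Finset (MvPolynomial τ (MvPolynomial σ ℤ)))
    (h : MvPolynomial τ (MvPolynomial σ ℤ)) :
    ∃ N : ℕ, ∀ (k : Type) [Field k] [IsAlgClosed k] (c : σ → k) (j : τ),
      FC N {y | ∃ x ∈ Loc G h c, x j = y} := by
  classical
  have key : ∀ j : τ, ∃ N : ℕ, ∀ (k : Type) [Field k] [IsAlgClosed k] (c : σ → k),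
      FC N {y | ∃ x ∈ Loc G h c, x j = y} := by
    intro j
    have hc1 : Topology.IsConstructible (PrimeSpectrum.zeroLocus
        (G : Set (MvPolynomial τ (MvPolynomial σ ℤ))) \ PrimeSpectrum.zeroLocus {h}) := by
      rw [← PrimeSpectrum.exists_constructibleSetData_iff]
      refine ⟨{⟨h, G.card, fun i => (G.equivFin.symm i : _)⟩}, ?_⟩
      simp only [PrimeSpectrum.ConstructibleSetData.toSet, Finset.mem_singleton,
        PrimeSpectrum.BasicConstructibleSetData.toSet, Set.iUnion_iUnion_eq_left]
      congr 2
      ext z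
      constructor
      · rintro ⟨i, rfl⟩; exact (G.equivFin.symm i).2
      · intro hz; exact ⟨G.equivFin ⟨z, hz⟩, by simp⟩
    have hc2 := PrimeSpectrum.isConstructible_comap_image (finitePresentation_coordHom (σ := σ) j) hc1
    obtain ⟨T, hT⟩ := PrimeSpectrum.exists_constructibleSetData_iff.2 hc2
    refine ⟨∑ D ∈ T, (D.f.natDegree + ∑ i, (D.g i).natDegree), ?_⟩
    intro k _ _ c
    set mc : Polynomial (MvPolynomial σ ℤ) →+* Polynomial k :=
      Polynomial.mapRingHom (MvPolynomial.eval₂Hom (Int.castRingHom k) c) with hmc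
    have hev : ∀ (y : k) (p : Polynomial (MvPolynomial σ ℤ)), evY c y p = (mc p).eval y := by
      intro y p
      simp [evY, hmc, Polynomial.eval_map]
    have hset : {y | ∃ x ∈ Loc G h c, x j = y} =
        ⋃ D ∈ T, {y | (∀ i, (mc (D.g i)).eval y = 0) ∧ (mc D.f).eval y ≠ 0} := by
      ext y
      rw [Set.mem_setOf_eq, ← mem_image_iff, ← hT]
      simp only [PrimeSpectrum.ConstructibleSetData.toSet, Set.mem_iUnion, exists_prop,
        PrimeSpectrum.BasicConstructibleSetData.toSet, Set.mem_sdiff, PrimeSpectrum.mem_zeroLocus,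
        Set.range_subset_iff, Set.singleton_subset_iff, Set.mem_setOf_eq]
      simp only [← hev]
      rfl
    rw [hset]
    have hb : ∀ p : Polynomial (MvPolynomial σ ℤ), mc p ≠ 0 →
        {y | (mc p).eval y = 0}.Finite ∧ {y | (mc p).eval y = 0}.ncard ≤ p.natDegree := by
      intro p hp
      have hs : {y | (mc p).eval y = 0} = ((mc p).roots.toFinset : Set k) := by
        ext y
        simp [Polynomial.mem_roots hp, Polynomial.IsRoot]
      rw [hs]
      refine ⟨Finset.finite_toSet _, ?_⟩
      rw [Set.ncard_coe_finset]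
      refine (Multiset.toFinset_card_le _).trans ((Polynomial.card_roots' _).trans ?_)
      exact Polynomial.natDegree_map_le
    by_cases hbig : ∃ D ∈ T, (∀ i, mc (D.g i) = 0) ∧ mc D.f ≠ 0
    · obtain ⟨D, hD, hg, hf⟩ := hbig
      right
      have hsub : (⋃ D ∈ T, {y | (∀ i, (mc (D.g i)).eval y = 0) ∧ (mc D.f).eval y ≠ 0})ᶜ ⊆
          {y | (mc D.f).eval y = 0} := by
        intro y hy
        by_contra hne
        apply hy
        simp only [Set.mem_iUnion]
        exact ⟨D, hD, ⟨fun i => by rw [hg i]; simp, hne⟩⟩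
      refine ⟨(hb _ hf).1.subset hsub, ?_⟩
      refine (Set.ncard_le_ncard hsub (hb _ hf).1).trans ((hb _ hf).2.trans ?_)
      refine le_trans ?_ (Finset.single_le_sum (f := fun D : PrimeSpectrum.BasicConstructibleSetData _ =>
        D.f.natDegree + ∑ i, (D.g i).natDegree) (fun _ _ => Nat.zero_le _) hD)
      exact Nat.le_add_right _ _
    · push Not at hbig
      left
      have hpiece : ∀ D ∈ T, {y | (∀ i, (mc (D.g i)).eval y = 0) ∧ (mc D.f).eval y ≠ 0}.Finite ∧
          {y | (∀ i, (mc (D.g i)).eval y = 0) ∧ (mc D.f).eval y ≠ 0}.ncard ≤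
            D.f.natDegree + ∑ i, (D.g i).natDegree := by
        intro D hD
        by_cases hg : ∀ i, mc (D.g i) = 0
        · have hf := hbig D hD hg
          have he : {y | (∀ i, (mc (D.g i)).eval y = 0) ∧ (mc D.f).eval y ≠ 0} = ∅ := by
            ext y
            simp [hf]
          rw [he]
          simp
        · push Not at hg
          obtain ⟨i, hi⟩ := hg
          have hsub : {y | (∀ i, (mc (D.g i)).eval y = 0) ∧ (mc D.f).eval y ≠ 0} ⊆
              {y | (mc (D.g i)).eval y = 0} := fun y hy => hy.1 i
          refine ⟨(hb _ hi).1.subset hsub, (Set.ncard_le_ncard hsub (hb _ hi).1).trans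
            ((hb _ hi).2.trans ?_)⟩
          refine le_trans ?_ (Nat.le_add_left _ _)
          exact Finset.single_le_sum (f := fun i => (D.g i).natDegree) (fun _ _ => Nat.zero_le _)
            (Finset.mem_univ i)
      refine ⟨T.finite_toSet.biUnion fun D hD => (hpiece D hD).1, ?_⟩
      refine le_trans ?_ (Finset.sum_le_sum fun D hD => (hpiece D hD).2)
      clear hbig hset hT hpiece
      induction T using Finset.induction_on with
      | empty => simp
      | insert D T hD ih =>
        rw [Finset.set_biUnion_insert, Finset.sum_insert hD]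
        exact (Set.ncard_union_le _ _).trans (Nat.add_le_add_left ih _)
  choose N hN using key
  have := Fintype.ofFinite τ
  refine ⟨∑ j, N j, fun k _ _ c j => (hN j k c).mono ?_⟩
  exact Finset.single_le_sum (fun _ _ => Nat.zero_le _) (Finset.mem_univ j)

end family

end Pool.Agent.Helper21.RE
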