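import Mathlib

/-! A2a: polynomials over `F` of degree `≤ D` in each variable vanishing on a finite set `E` of `K`-points,
`F ⊆ K` fields, `F` finite: at most a proportion `|F|^(-|E|)`. -/

set_option autoImplicit false

namespace Pool.Agent.Helper21.RE

open MvPolynomial

section

variable {ι : Type} [Fintype ι] [DecidableEq ι] {D : ℕ} {F K : Type} [Field F] [Fintype F]
  [Field K] [Algebra F K]

/-- the monomial vectors -/
def vec (D : ℕ) {K : Type} [Field K] (E : Finset (ι → K)) (α : ι → Fin (D + 1)) : E → K :=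
  fun x => ∏ i, x.1 i ^ (α i : ℕ)

/-- the exponent vector as a finsupp -/
noncomputable def expo {D : ℕ} (α : ι → Fin (D + 1)) : ι →₀ ℕ :=
  Finsupp.equivFunOnFinite.symm (fun t => (α t : ℕ))

/-- evaluation of a polynomial of bounded degree -/
theorem eval_eq_sum (f : MvPolynomial ι K) (hf : ∀ i, f.degreeOf i ≤ D) (x : ι → K) :
    eval x f = ∑ α : ι → Fin (D + 1), f.coeff (expo α) * ∏ t, x t ^ (α t : ℕ) := by
  classical
  rw [MvPolynomial.eval_eq']
  have hle : ∀ d ∈ f.support, ∀ t, d t < D + 1 := by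
    intro d hd t
    have := MvPolynomial.degreeOf_le_iff.1 (hf t) d hd
    omega
  have himg : f.support ⊆ Finset.univ.image (expo : (ι → Fin (D + 1)) → _) := by
    intro d hd
    rw [Finset.mem_image]
    refine ⟨fun t => ⟨d t, hle d hd t⟩, Finset.mem_univ _, ?_⟩
    ext t
    simp [expo]
  rw [Finset.sum_subset himg, Finset.sum_image]
  · rfl
  · intro α _ β _ hαβ
    funext t
    apply Fin.ext
    have := DFunLike.congr_fun hαβ t
    simpa [expo] using this
  · intro d _ hd
    rw [MvPolynomial.notMem_support_iff] at hd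
    rw [hd, zero_mul]

open Classical in
/-- Lagrange interpolation -/
theorem lagrange (E : Finset (ι → K)) (hE : E.card ≤ D + 1) (x0 : ι → K) (hx0 : x0 ∈ E) :
    ∃ f : MvPolynomial ι K, (∀ i, f.degreeOf i ≤ D) ∧ ∀ x ∈ E, eval x f = if x = x0 then 1 else 0 := by
  have hsep : ∀ x : ι → K, x ∈ E.erase x0 → ∃ i, x i ≠ x0 i := by
    intro x hx
    by_contra hcon
    push Not at hcon
    exact (Finset.ne_of_mem_erase hx) (funext hcon)
  choose j hj using hsep
  refine ⟨∏ x ∈ (E.erase x0).attach, C ((x0 (j x.1 x.2) - x.1 (j x.1 x.2))⁻¹) *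
    (X (j x.1 x.2) - C (x.1 (j x.1 x.2))), ?_, ?_⟩
  · intro i
    refine (degreeOf_prod_le _ _ _).trans ?_
    have h1 : ∀ x ∈ (E.erase x0).attach, (C ((x0 (j x.1 x.2) - x.1 (j x.1 x.2))⁻¹) *
        (X (j x.1 x.2) - C (x.1 (j x.1 x.2))) : MvPolynomial ι K).degreeOf i ≤ 1 := by
      intro x _
      refine (degreeOf_C_mul_le _ _ _).trans ?_
      refine (degreeOf_sub_le _ _ _).trans ?_
      rw [degreeOf_C, degreeOf_X]
      split_ifs <;> simp
    refine (Finset.sum_le_card_nsmul _ _ 1 h1).trans ?_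
    rw [Finset.card_attach, Finset.card_erase_of_mem hx0]
    simp only [smul_eq_mul, mul_one]
    omega
  · intro x hx
    rw [eval_prod]
    split_ifs with h
    · subst h
      apply Finset.prod_eq_one
      intro z hz
      have hne : x (j z.1 z.2) - z.1 (j z.1 z.2) ≠ 0 := sub_ne_zero.2 (hj z.1 z.2).symm
      simp [hne]
    · apply Finset.prod_eq_zero (Finset.mem_attach _ ⟨x, Finset.mem_erase.2 ⟨h, hx⟩⟩)
      simp

theorem span_vec (E : Finset (ι → K)) (hE : E.card ≤ D + 1) :
    Submodule.span K (Set.range (vec D E)) = ⊤ := by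
  classical
  rw [eq_top_iff]
  intro g _
  have hsingle : ∀ x0 : E, (Pi.single x0 1 : E → K) ∈ Submodule.span K (Set.range (vec D E)) := by
    intro x0
    obtain ⟨f, hf, hf'⟩ := lagrange E hE x0.1 x0.2
    have : (Pi.single x0 1 : E → K) = ∑ α : ι → Fin (D + 1), f.coeff (expo α) • vec D E α := by
      funext x
      rw [Finset.sum_apply]
      simp only [Pi.smul_apply, smul_eq_mul, vec]
      rw [← eval_eq_sum f hf x.1, hf' x.1 x.2]
      by_cases h : x = x0
      · subst h; simp
      · rw [Pi.single_eq_of_ne h, if_neg (fun h' => h (Subtype.ext h'))]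
    rw [this]
    exact Submodule.sum_mem _ fun α _ => Submodule.smul_mem _ _ (Submodule.subset_span ⟨α, rfl⟩)
  have hg : g = ∑ x0 : E, g x0 • (Pi.single x0 1 : E → K) := by
    funext x
    simp [Finset.sum_apply, Pi.single_apply]
  rw [hg]
  exact Submodule.sum_mem _ fun x0 _ => Submodule.smul_mem _ _ (hsingle x0)

/-- A2a for one polynomial -/
theorem vanish_count (E : Finset (ι → K)) (hE : E.card ≤ D + 1) :
    Nat.card {c : (ι → Fin (D + 1)) → F // ∀ x ∈ E, ∑ α : ι → Fin (D + 1),
      algebraMap F K (c α) * ∏ i, x i ^ (α i : ℕ) = 0} * Fintype.card F ^ E.card ≤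
      Fintype.card ((ι → Fin (D + 1)) → F) := by
  classical
  obtain ⟨κ, a, ha, hspan, hli⟩ := exists_linearIndependent' K (vec D E)
  rw [span_vec E hE] at hspan
  let b : Module.Basis κ K (E → K) := Module.Basis.mk hli (by rw [hspan])
  have hκ : Finite κ := Finite.of_injective a ha
  have := Fintype.ofFinite κ
  have hcard : Fintype.card κ = E.card := by
    have h1 := Module.finrank_eq_card_basis b
    rw [Module.finrank_fintype_fun_eq_card, Fintype.card_coe] at h1
    exact h1.symm
  rw [← hcard, ← Fintype.card_fun (β := F), ← Nat.card_eq_fintype_card, ← Nat.card_prod,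
    ← Nat.card_eq_fintype_card]
  -- the injection
  let ext : (κ → F) → ((ι → Fin (D + 1)) → F) := fun e α => ∑ i : κ, if a i = α then e i else 0
  have hext : ∀ (e : κ → F) (x : ι → K), ∑ α : ι → Fin (D + 1),
      algebraMap F K (ext e α) * ∏ i, x i ^ (α i : ℕ) = ∑ i : κ, algebraMap F K (e i) *
        ∏ t, x t ^ (a i t : ℕ) := by
    intro e x
    simp only [ext, map_sum, Finset.sum_mul]
    rw [Finset.sum_comm]
    refine Finset.sum_congr rfl fun i _ => ?_
    rw [Finset.sum_eq_single (a i)]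
    · simp
    · intro α _ hα
      rw [if_neg (Ne.symm hα), map_zero, zero_mul]
    · intro h; exact absurd (Finset.mem_univ _) h
  refine Nat.card_le_card_of_injective (fun z : {c : (ι → Fin (D + 1)) → F // ∀ x ∈ E,
      ∑ α : ι → Fin (D + 1), algebraMap F K (c α) * ∏ i, x i ^ (α i : ℕ) = 0} × (κ → F) =>
      z.1.1 + ext z.2) ?_
  rintro ⟨⟨c, hc⟩, e⟩ ⟨⟨c', hc'⟩, e'⟩ h
  simp only at h
  have he : e = e' := by
    have h1 : ∑ i : κ, (algebraMap F K (e i) - algebraMap F K (e' i)) • (vec D E ∘ a) i = 0 := by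
      funext x
      rw [Finset.sum_apply]
      simp only [Pi.smul_apply, smul_eq_mul, vec, Function.comp_apply, sub_mul, Finset.sum_sub_distrib,
        Pi.zero_apply]
      rw [← hext e x.1, ← hext e' x.1]
      have h2 : ∑ α : ι → Fin (D + 1), algebraMap F K ((c + ext e) α) * ∏ i, x.1 i ^ (α i : ℕ) =
          ∑ α : ι → Fin (D + 1), algebraMap F K ((c' + ext e') α) * ∏ i, x.1 i ^ (α i : ℕ) := by
        rw [h]
      simp only [Pi.add_apply, map_add, add_mul, Finset.sum_add_distrib] at h2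
      rw [hc x.1 x.2, hc' x.1 x.2, zero_add, zero_add] at h2
      rw [h2, sub_self]
    have h2 := Fintype.linearIndependent_iff.1 hli _ h1
    funext i
    exact (algebraMap F K).injective (sub_eq_zero.1 (h2 i))
  subst he
  have hc'' : c = c' := add_right_cancel h
  subst hc''
  rfl

/-- A2a for `v` polynomials -/
theorem vanish_count_fun (v : ℕ) (E : Finset (ι → K)) (hE : E.card ≤ D + 1) :
    Nat.card {c : Fin v → (ι → Fin (D + 1)) → F // ∀ l, ∀ x ∈ E, ∑ α : ι → Fin (D + 1),
      algebraMap F K (c l α) * ∏ i, x i ^ (α i : ℕ) = 0} * Fintype.card F ^ (v * E.card) ≤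
      Fintype.card (Fin v → (ι → Fin (D + 1)) → F) := by
  classical
  have h1 := vanish_count (F := F) E hE
  have h2 : Nat.card {c : Fin v → (ι → Fin (D + 1)) → F // ∀ l, ∀ x ∈ E, ∑ α : ι → Fin (D + 1),
      algebraMap F K (c l α) * ∏ i, x i ^ (α i : ℕ) = 0} =
      Nat.card {c : (ι → Fin (D + 1)) → F // ∀ x ∈ E, ∑ α : ι → Fin (D + 1),
      algebraMap F K (c α) * ∏ i, x i ^ (α i : ℕ) = 0} ^ v := by
    rw [Nat.card_congr (Equiv.subtypePiEquivPi (p := fun (_ : Fin v) (c : (ι → Fin (D + 1)) → F) =>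
      ∀ x ∈ E, ∑ α : ι → Fin (D + 1), algebraMap F K (c α) * ∏ i, x i ^ (α i : ℕ) = 0))]
    rw [Nat.card_fun, Nat.card_fin]
  rw [h2, mul_comm v, pow_mul, ← mul_pow, Fintype.card_fun, Fintype.card_fin]
  exact Nat.pow_le_pow_left h1 v

end

end Pool.Agent.Helper21.RE
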